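import Mathlib

/-!
# A `σ`-space of weight at most `𝔠` outside `SC_p(M₀^{<ω})` (MP_713d40_gt)

The space is the Mrówka-Isbell space of a maximal almost disjoint family of subsets of `ℕ`.
-/

namespace Pool.Agent.Results.MP_713d40_gt.MrowkaNotIn

open Set Topology Filter Cardinal

universe u v

section Defs

/-- `f : M^{<ω} → ℝ` is separately continuous on every finite power `M^n`: it is continuous in each
coordinate when the other coordinates are held fixed. -/
def IsSC {M : Type u} [TopologicalSpace M] (f : (Σ n : ℕ, (Fin n → M)) → ℝ) : Prop :=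
  ∀ (n : ℕ) (x : Fin n → M) (i : Fin n), Continuous fun t : M => f ⟨n, Function.update x i t⟩

/-- `SC_p(M^{<ω})`: the space of all functions on `M^{<ω}` that are separately continuous on every
finite power, with the topology of pointwise convergence. -/
def SCp (M : Type u) [TopologicalSpace M] : Type u :=
  {f : (Σ n : ℕ, (Fin n → M)) → ℝ // IsSC f}

instance (M : Type u) [TopologicalSpace M] : TopologicalSpace (SCp M) :=
  instTopologicalSpaceSubtype

/-- `𝒢` is a network of `X`. -/
def IsNetwork {X : Type u} [TopologicalSpace X] (𝒢 : Set (Set X)) : Prop :=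
  ∀ (y : X) (U : Set X), IsOpen U → y ∈ U → ∃ P ∈ 𝒢, y ∈ P ∧ P ⊆ U

/-- `𝒢` is a `σ`-locally finite family of subsets of `X`. -/
def IsSigmaLocallyFinite {X : Type u} [TopologicalSpace X] (𝒢 : Set (Set X)) : Prop :=
  ∃ 𝒬 : ℕ → Set (Set X), (∀ n, LocallyFinite (fun P : 𝒬 n => (P : Set X))) ∧ 𝒢 = ⋃ n, 𝒬 n

/-- `X` is a `σ`-space: a regular (`T₃`) space with a `σ`-locally finite network. -/
def IsSigmaSpace (X : Type u) [TopologicalSpace X] : Prop :=
  T3Space X ∧ ∃ 𝒢 : Set (Set X), IsSigmaLocallyFinite 𝒢 ∧ IsNetwork 𝒢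

end Defs

/-! ### A maximal almost disjoint family -/

/-- the columns of `ℕ ≃ ℕ × ℕ` -/
def col (m : ℕ) : Set ℕ := range fun k => Nat.pair m k

theorem col_infinite (m : ℕ) : (col m).Infinite :=
  infinite_range_of_injective fun _ _ h => (Nat.pair_eq_pair.1 h).2

theorem col_disj {m n : ℕ} (h : m ≠ n) : Disjoint (col m) (col n) := by
  rw [Set.disjoint_left]
  rintro _ ⟨k, rfl⟩ ⟨l, hl⟩
  exact h (Nat.pair_eq_pair.1 hl).1.symm

theorem col_injective : Function.Injective col := by
  intro m n h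
  by_contra hne
  have h1 := col_disj hne
  rw [h, disjoint_self] at h1
  exact (col_infinite n).nonempty.ne_empty h1

/-- almost disjoint families of infinite sets -/
def IsAD (𝒜 : Set (Set ℕ)) : Prop :=
  (∀ A ∈ 𝒜, A.Infinite) ∧ ∀ A ∈ 𝒜, ∀ B ∈ 𝒜, A ≠ B → (A ∩ B).Finite

theorem exists_mad : ∃ 𝒜 : Set (Set ℕ), IsAD 𝒜 ∧ (∀ m, col m ∈ 𝒜) ∧
    ∀ M : Set ℕ, M.Infinite → ∃ B ∈ 𝒜, (B ∩ M).Infinite := by
  have h0 : IsAD (range col) := by
    refine ⟨?_, ?_⟩
    · rintro _ ⟨m, rfl⟩
      exact col_infinite m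
    · rintro _ ⟨m, rfl⟩ _ ⟨n, rfl⟩ hne
      have : m ≠ n := fun h => hne (by rw [h])
      rw [(col_disj this).inter_eq]
      exact Set.finite_empty
  obtain ⟨𝒜, hsub, hmax⟩ := zorn_subset_nonempty {𝒜 | IsAD 𝒜} (by
    intro c hc hchain hne
    refine ⟨⋃₀ c, ⟨?_, ?_⟩, fun s hs => subset_sUnion_of_mem hs⟩
    · rintro A ⟨𝒜, h𝒜, hA⟩
      exact (hc h𝒜).1 A hA
    · rintro A ⟨𝒜, h𝒜, hA⟩ B ⟨ℬ, hℬ, hB⟩ hAB
      rcases hchain.total h𝒜 hℬ with h | h
      · exact (hc hℬ).2 A (h hA) B hB hAB
      · exact (hc h𝒜).2 A hA B (h hB) hAB) (range col) h0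
  refine ⟨𝒜, hmax.prop, fun m => hsub ⟨m, rfl⟩, fun M hM => ?_⟩
  by_contra hcon
  push Not at hcon
  have h1 : IsAD (insert M 𝒜) := by
    refine ⟨?_, ?_⟩
    · rintro A (rfl | hA)
      · exact hM
      · exact hmax.prop.1 A hA
    · rintro A (rfl | hA) B (rfl | hB) hAB
      · exact absurd rfl hAB
      · have := hcon B hB
        rwa [inter_comm] at this
      · exact hcon A hA
      · exact hmax.prop.2 A hA B hB hAB
  have h2 : M ∈ 𝒜 := hmax.le_of_ge h1 (subset_insert M 𝒜) (mem_insert M 𝒜)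
  have h3 := hcon M h2
  rw [inter_self] at h3
  exact hM h3

/-- the maximal almost disjoint family -/
def MAD : Set (Set ℕ) := exists_mad.choose

theorem mad_ad : IsAD MAD := exists_mad.choose_spec.1
theorem mad_col (m : ℕ) : col m ∈ MAD := exists_mad.choose_spec.2.1 m
theorem mad_max (M : Set ℕ) (hM : M.Infinite) : ∃ B ∈ MAD, (B ∩ M).Infinite :=
  exists_mad.choose_spec.2.2 M hM

/-! ### The space `Ψ` -/

/-- the points of `Ψ`: natural numbers and members of the family -/
inductive Psi : Type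
  | nat : ℕ → Psi
  | pt : MAD → Psi

open Psi

instance : TopologicalSpace Psi where
  IsOpen U := ∀ i, pt i ∈ U → {k | k ∈ i.1 ∧ nat k ∉ U}.Finite
  isOpen_univ := fun i _ => by simp
  isOpen_inter := by
    intro U V hU hV i hi
    refine ((hU i hi.1).union (hV i hi.2)).subset ?_
    rintro k ⟨hk, hk'⟩
    by_cases h : nat k ∈ U
    · exact Or.inr ⟨hk, fun h' => hk' ⟨h, h'⟩⟩
    · exact Or.inl ⟨hk, h⟩
  isOpen_sUnion := by
    rintro 𝒮 h𝒮 i ⟨U, hU, hi⟩
    refine (h𝒮 U hU i hi).subset ?_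
    rintro k ⟨hk, hk'⟩
    exact ⟨hk, fun h => hk' ⟨U, hU, h⟩⟩

theorem isOpen_iff (U : Set Psi) : IsOpen U ↔ ∀ i, pt i ∈ U → {k | k ∈ i.1 ∧ nat k ∉ U}.Finite :=
  Iff.rfl

/-- the basic neighbourhood `{i} ∪ (A_i ∖ n)` of the point `i` -/
def V (n : ℕ) (i : MAD) : Set Psi := insert (pt i) (nat '' {k | k ∈ i.1 ∧ n ≤ k})

theorem pt_mem_V {n : ℕ} {i j : MAD} : pt j ∈ V n i ↔ j = i := by
  simp [V]

theorem nat_mem_V {n k : ℕ} {i : MAD} : nat k ∈ V n i ↔ k ∈ i.1 ∧ n ≤ k := by
  simp [V]

theorem isClopen_nat (k : ℕ) : IsClopen ({nat k} : Set Psi) := by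
  constructor
  · rw [← isOpen_compl_iff, isOpen_iff]
    intro i _
    refine (Set.finite_singleton k).subset ?_
    rintro j ⟨-, hj⟩
    rw [notMem_compl_iff] at hj
    cases hj
    rfl
  · rw [isOpen_iff]
    intro i hi
    cases hi

theorem isClopen_V (n : ℕ) (i : MAD) : IsClopen (V n i) := by
  constructor
  · rw [← isOpen_compl_iff, isOpen_iff]
    intro j hj
    have hji : j.1 ≠ i.1 := by
      intro h
      exact hj (pt_mem_V.2 (Subtype.ext h))
    refine (mad_ad.2 j.1 j.2 i.1 i.2 hji).subset ?_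
    rintro k ⟨hk, hk'⟩
    rw [notMem_compl_iff] at hk'
    exact ⟨hk, (nat_mem_V.1 hk').1⟩
  · rw [isOpen_iff]
    intro j hj
    rw [pt_mem_V] at hj
    subst hj
    refine (Set.finite_Iio n).subset ?_
    rintro k ⟨hk, hk'⟩
    by_contra h
    exact hk' (nat_mem_V.2 ⟨hk, not_lt.1 h⟩)

theorem exists_V {i : MAD} {U : Set Psi} (hU : IsOpen U) (hi : pt i ∈ U) : ∃ n, V n i ⊆ U := by
  obtain ⟨N, hN⟩ := ((isOpen_iff U).1 hU i hi).bddAbove
  refine ⟨N + 1, ?_⟩
  rintro (k | j) hx
  · rw [nat_mem_V] at hx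
    by_contra h
    have : k ≤ N := hN ⟨hx.1, h⟩
    omega
  · rw [pt_mem_V] at hx
    rw [hx]
    exact hi

/-- The basic clopen sets. -/
def basis : Set (Set Psi) := (range fun k : ℕ => ({nat k} : Set Psi)) ∪
  range fun p : ℕ × MAD => V p.1 p.2

theorem isClopen_of_mem_basis {s : Set Psi} (hs : s ∈ basis) : IsClopen s := by
  rcases hs with ⟨k, rfl⟩ | ⟨p, rfl⟩
  · exact isClopen_nat k
  · exact isClopen_V _ _

theorem basis_nhds {x : Psi} {U : Set Psi} (hU : IsOpen U) (hx : x ∈ U) :
    ∃ s ∈ basis, x ∈ s ∧ s ⊆ U := by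
  rcases x with k | i
  · exact ⟨{nat k}, Or.inl ⟨k, rfl⟩, rfl, by simpa using hx⟩
  · obtain ⟨n, hn⟩ := exists_V hU hx
    exact ⟨V n i, Or.inr ⟨(n, i), rfl⟩, pt_mem_V.2 rfl, hn⟩

theorem isTopologicalBasis_basis : TopologicalSpace.IsTopologicalBasis basis :=
  TopologicalSpace.isTopologicalBasis_of_isOpen_of_nhds
    (fun _ hs => (isClopen_of_mem_basis hs).isOpen) fun _ _ hx hU => basis_nhds hU hx

theorem mk_basis : Cardinal.mk basis ≤ 𝔠 := by
  have h1 : Cardinal.mk MAD ≤ 𝔠 := by
    refine (mk_set_le MAD).trans ?_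
    rw [mk_set, mk_nat, two_power_aleph0]
  refine (mk_union_le _ _).trans ?_
  have h2 : Cardinal.mk (range fun k : ℕ => ({nat k} : Set Psi)) ≤ 𝔠 :=
    mk_range_le.trans (by rw [mk_nat]; exact aleph0_le_continuum)
  have h3 : Cardinal.mk (range fun p : ℕ × MAD => V p.1 p.2) ≤ 𝔠 := by
    refine mk_range_le.trans ?_
    rw [mk_prod, lift_id, lift_id, mk_nat]
    calc ℵ₀ * Cardinal.mk MAD ≤ 𝔠 * 𝔠 := mul_le_mul' aleph0_le_continuum h1
      _ = 𝔠 := continuum_mul_self
  calc _ ≤ 𝔠 + 𝔠 := add_le_add h2 h3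
    _ = 𝔠 := continuum_add_self

theorem isClosed_singleton (x : Psi) : IsClosed ({x} : Set Psi) := by
  rcases x with k | i
  · exact (isClopen_nat k).1
  · rw [← isOpen_compl_iff, isOpen_iff]
    intro j _
    refine Set.finite_empty.subset ?_
    rintro k ⟨-, hk⟩
    exact hk (by simp)

instance : T1Space Psi := ⟨isClosed_singleton⟩

instance : CompletelyRegularSpace Psi := by
  apply CompletelyRegularSpace.of_isTopologicalBasis_clopens
  refine TopologicalSpace.isTopologicalBasis_of_isOpen_of_nhds (fun s hs => hs.isOpen) ?_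
  intro x U hx hU
  obtain ⟨C, hC, hxC, hCU⟩ := basis_nhds hU hx
  exact ⟨C, isClopen_of_mem_basis hC, hxC, hCU⟩

instance : T35Space Psi where

theorem isSigmaSpace_Psi : IsSigmaSpace Psi := by
  refine ⟨inferInstance, range fun x : Psi => ({x} : Set Psi), ?_, ?_⟩
  · refine ⟨fun n => match n with
      | 0 => range fun i : MAD => ({pt i} : Set Psi)
      | k + 1 => {{nat k}}, ?_, ?_⟩
    · rintro (_ | k)
      · intro x
        rcases x with k | i
        · refine ⟨{nat k}, (isClopen_nat k).isOpen.mem_nhds rfl, ?_⟩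
          convert Set.finite_empty
          ext ⟨P, i, rfl⟩
          simp
        · refine ⟨V 0 i, (isClopen_V 0 i).isOpen.mem_nhds (pt_mem_V.2 rfl), ?_⟩
          refine Set.Subsingleton.finite ?_
          rintro ⟨P, j, rfl⟩ hj ⟨Q, l, rfl⟩ hl
          have h1 : j = i := by
            obtain ⟨x, hx, hx'⟩ := hj
            have : x = pt j := hx
            subst this
            exact pt_mem_V.1 hx'
          have h2 : l = i := by
            obtain ⟨x, hx, hx'⟩ := hl
            have : x = pt l := hx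
            subst this
            exact pt_mem_V.1 hx'
          subst h1
          subst h2
          rfl
      · intro x
        refine ⟨univ, univ_mem, Set.Subsingleton.finite ?_⟩
        rintro ⟨P, hP⟩ _ ⟨Q, hQ⟩ _
        have h1 : P = {nat k} := hP
        have h2 : Q = {nat k} := hQ
        subst h1
        subst h2
        rfl
    · ext s
      simp only [mem_range, mem_iUnion]
      constructor
      · rintro ⟨x | x, rfl⟩
        · exact ⟨x + 1, rfl⟩
        · exact ⟨0, x, rfl⟩
      · rintro ⟨_ | k, h⟩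
        · obtain ⟨i, rfl⟩ := h
          exact ⟨_, rfl⟩
        · exact ⟨nat k, h.symm⟩
  · intro y U _ hy
    exact ⟨{y}, ⟨y, rfl⟩, rfl, by simpa using hy⟩

/-! ### `Ψ` has no coarser metrizable topology -/

theorem tendsto_pt {i : MAD} {s : ℕ → ℕ} (hs : ∀ m, s m ∈ i.1) (hinj : Function.Injective s) :
    Tendsto (fun m => nat (s m)) atTop (𝓝 (pt i)) := by
  rw [tendsto_nhds]
  intro U hU hi
  have h1 : {m | nat (s m) ∉ U}.Finite := by
    refine Set.Finite.of_finite_image (f := s) ?_ hinj.injOn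
    refine ((isOpen_iff U).1 hU i hi).subset ?_
    rintro _ ⟨m, hm, rfl⟩
    exact ⟨hs m, hm⟩
  have h2 := h1.compl_mem_cofinite
  rw [← Nat.cofinite_eq_atTop]
  filter_upwards [h2] with m hm
  by_contra h
  exact hm h

/-- For every sequence of indices there is a subsequence along which points chosen close to the
column points converge to a point of the family. -/
theorem exists_limit {Z : Type*} [MetricSpace Z] {g : Psi → Z} (hg : Continuous g)
    (c : ℕ → ℕ) (hc : Function.Injective c) (avoid : Set ℕ)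
    (hav : ∀ m, ((col (c m)) \ avoid).Infinite) :
    ∃ (b : MAD) (φ : ℕ → ℕ), StrictMono φ ∧ ¬ b.1 ⊆ avoid ∧
      Tendsto (fun m => g (pt ⟨col (c (φ m)), mad_col _⟩)) atTop (𝓝 (g (pt b))) := by
  -- choose the points
  have h1 : ∀ m, ∃ k ∈ col (c m) \ avoid,
      dist (g (nat k)) (g (pt ⟨col (c m), mad_col _⟩)) < 1 / ((m : ℝ) + 1) := by
    intro m
    have hpos : (0 : ℝ) < 1 / ((m : ℝ) + 1) := by positivity
    have hopen : IsOpen (g ⁻¹' Metric.ball (g (pt ⟨col (c m), mad_col _⟩)) (1 / ((m : ℝ) + 1))) :=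
      Metric.isOpen_ball.preimage hg
    have hfin := (isOpen_iff _).1 hopen ⟨col (c m), mad_col _⟩ (Metric.mem_ball_self hpos)
    obtain ⟨k, hk, hk'⟩ := (hav m).exists_notMem_finite hfin
    refine ⟨k, hk, ?_⟩
    by_contra hcon
    exact hk' ⟨hk.1, hcon⟩
  choose s hs hsd using h1
  have hsinj : Function.Injective s := by
    intro m n h
    by_contra hne
    have h2 := col_disj (fun h => hne (hc h) : c m ≠ c n)
    exact Set.disjoint_left.1 h2 (hs m).1 (by rw [h]; exact (hs n).1)
  obtain ⟨B, hB, hBinf⟩ := mad_max (range s) (infinite_range_of_injective hsinj)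
  have h3 : {m | s m ∈ B}.Infinite := by
    intro hfin
    apply hBinf
    refine (hfin.image s).subset ?_
    rintro _ ⟨hx, m, rfl⟩
    exact ⟨m, hx, rfl⟩
  obtain ⟨φ, hφ, hφB⟩ := extraction_of_frequently_atTop (Nat.frequently_atTop_iff_infinite.2 h3)
  refine ⟨⟨B, hB⟩, φ, hφ, fun h => (hs (φ 0)).2 (h (hφB 0)), ?_⟩
  have h4 : Tendsto (fun m => g (nat (s (φ m)))) atTop (𝓝 (g (pt ⟨B, hB⟩))) :=
    (hg.tendsto _).comp (tendsto_pt (i := ⟨B, hB⟩) (s := fun m => s (φ m)) hφB
      (hsinj.comp hφ.injective))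
  refine h4.congr_dist ?_
  refine squeeze_zero (fun _ => dist_nonneg) (fun m => (hsd (φ m)).le) ?_
  exact tendsto_one_div_add_atTop_nhds_zero_nat.comp hφ.tendsto_atTop

/-- `Ψ` admits no continuous injection into a metric space. -/
theorem not_injective {Z : Type*} [MetricSpace Z] {g : Psi → Z} (hg : Continuous g) :
    ¬ Function.Injective g := by
  intro hinj
  obtain ⟨b, φ, hφ, -, hlim⟩ := exists_limit hg id Function.injective_id ∅
    (fun m => by rw [sdiff_empty]; exact col_infinite m)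
  obtain ⟨N, hN⟩ : ∃ N, ∀ m ≥ N, col (φ m) ≠ b.1 := by
    by_cases h : ∃ m₀, col (φ m₀) = b.1
    · obtain ⟨m₀, hm₀⟩ := h
      refine ⟨m₀ + 1, fun m hm h => ?_⟩
      have h1 := hφ.injective (col_injective (h.trans hm₀.symm))
      omega
    · push Not at h
      exact ⟨0, fun m _ => h m⟩
  obtain ⟨b', ψ, hψ, hb', hlim'⟩ := exists_limit hg (fun m => φ (m + N))
    (fun m n h => by
      have := hφ.injective h
      omega) b.1
    (fun m => by
      intro hfin
      have h1 := mad_ad.2 _ (mad_col (φ (m + N))) _ b.2 (hN _ (by omega))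
      refine col_infinite (φ (m + N)) ((h1.union hfin).subset ?_)
      intro x hx
      by_cases hxb : x ∈ b.1
      · exact Or.inl ⟨hx, hxb⟩
      · exact Or.inr ⟨hx, hxb⟩)
  have h2 : Tendsto (fun m => g (pt ⟨col (φ (ψ m + N)), mad_col _⟩)) atTop (𝓝 (g (pt b))) := by
    have h3 : Tendsto (fun m => ψ m + N) atTop atTop :=
      tendsto_atTop_mono (fun m => Nat.le_add_right _ _) hψ.tendsto_atTop
    exact hlim.comp h3
  have h4 := hinj (tendsto_nhds_unique h2 hlim')
  cases h4
  exact hb' subset_rfl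

/-! ### Separately continuous functions are determined on a dense set -/

theorem eq_of_dense {M : Type u} [TopologicalSpace M] {E : Set M} (hE : Dense E) {n : ℕ}
    {f g : (Fin n → M) → ℝ}
    (hf : ∀ (x : Fin n → M) (i : Fin n), Continuous fun t : M => f (Function.update x i t))
    (hg : ∀ (x : Fin n → M) (i : Fin n), Continuous fun t : M => g (Function.update x i t))
    (h : ∀ x : Fin n → M, (∀ i, x i ∈ E) → f x = g x) : f = g := by
  classical
  have key : ∀ (s : Finset (Fin n)) (x : Fin n → M), (∀ i, i ∉ s → x i ∈ E) → f x = g x := by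
    intro s
    induction s using Finset.induction_on with
    | empty =>
      intro x hx
      exact h x fun i => hx i (Finset.notMem_empty i)
    | insert a s ha ih =>
      intro x hx
      have h1 : (fun t : M => f (Function.update x a t)) =
          fun t : M => g (Function.update x a t) := by
        refine Continuous.ext_on hE (hf x a) (hg x a) ?_
        intro t ht
        refine ih _ fun i hi => ?_
        by_cases hia : i = a
        · subst hia
          rw [Function.update_self]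
          exact ht
        · rw [Function.update_of_ne hia]
          exact hx i (by simp [hia, hi])
      have h2 := congrFun h1 (x a)
      simpa using h2
  funext x
  exact key Finset.univ x fun i hi => absurd (Finset.mem_univ i) hi

/-- `Ψ` admits no continuous injection into `SC_p(M^{<ω})` with `M` separable. -/
theorem not_injective_SCp {M : Type u} [TopologicalSpace M] [TopologicalSpace.SeparableSpace M]
    {f : Psi → SCp M} (hf : Continuous f) : ¬ Function.Injective f := by
  intro hinj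
  obtain ⟨E, hEc, hE⟩ := TopologicalSpace.exists_countable_dense M
  have : Countable E := hEc.to_subtype
  let r : Psi → ((Σ n : ℕ, (Fin n → E)) → ℝ) := fun x p => (f x).1 ⟨p.1, fun i => (p.2 i : M)⟩
  have hr : Continuous r := by
    refine continuous_pi fun p => ?_
    exact (continuous_apply _).comp (continuous_subtype_val.comp hf)
  have hrinj : Function.Injective r := by
    intro x y hxy
    apply hinj
    apply Subtype.ext
    funext ⟨n, z⟩
    have h1 : (fun z : Fin n → M => (f x).1 ⟨n, z⟩) = fun z : Fin n → M => (f y).1 ⟨n, z⟩ := by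
      refine eq_of_dense hE (fun z i => (f x).2 n z i) (fun z i => (f y).2 n z i) ?_
      intro z hz
      exact congrFun hxy ⟨n, fun i => ⟨z i, hz i⟩⟩
    exact congrFun h1 z
  have hmet : TopologicalSpace.MetrizableSpace ((Σ n : ℕ, (Fin n → E)) → ℝ) :=
    TopologicalSpace.metrizableSpace_of_t3_secondCountable _
  letI := TopologicalSpace.metrizableSpaceMetric ((Σ n : ℕ, (Fin n → E)) → ℝ)
  exact not_injective hr hrinj

/-- There is a Tychonoff `σ`-space `X` with `w(X) ≤ 𝔠` that embeds into no space `SC_p(M^{<ω})`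
with `M` separable metrizable, and even admits no continuous injection into such a space. -/
theorem result : ∃ (X : Type) (_ : TopologicalSpace X), T35Space X ∧ IsSigmaSpace X ∧
    (∃ ℬ : Set (Set X), TopologicalSpace.IsTopologicalBasis ℬ ∧ Cardinal.mk ℬ ≤ 𝔠) ∧
    ∀ (M : Type u) [TopologicalSpace M] [TopologicalSpace.MetrizableSpace M]
      [TopologicalSpace.SeparableSpace M],
      (¬ ∃ f : X → SCp M, IsEmbedding f) ∧ ¬ ∃ f : X → SCp M, Continuous f ∧
        Function.Injective f := by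
  refine ⟨Psi, inferInstance, inferInstance, isSigmaSpace_Psi,
    ⟨basis, isTopologicalBasis_basis, mk_basis⟩, fun M _ _ _ => ⟨?_, ?_⟩⟩
  · rintro ⟨f, hf⟩
    exact not_injective_SCp hf.continuous hf.injective
  · rintro ⟨f, hf, hinj⟩
    exact not_injective_SCp hf hinj

end Pool.Agent.Results.MP_713d40_gt.MrowkaNotIn
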